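import Pool.Agent.UL3.Stmts

/-!
# Squad UL3 (MP_c7c9bf_co), row DIR: one direction (helper16)
-/

set_option autoImplicit false

namespace Pool.Agent.UL3.H16

open MeasureTheory Set

theorem int_lin (a b c d : ℝ) :
    ∫ t in a..b, (c + d * t) = c * (b - a) + d * (b ^ 2 - a ^ 2) / 2 := by
  have h1 : IntervalIntegrable (fun _ : ℝ => c) volume a b :=
    continuous_const.intervalIntegrable _ _
  have h2 : IntervalIntegrable (fun t : ℝ => d * t) volume a b :=
    (continuous_const.mul continuous_id).intervalIntegrable _ _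
  rw [intervalIntegral.integral_add h1 h2, intervalIntegral.integral_const,
    intervalIntegral.integral_const_mul, integral_id, smul_eq_mul]
  ring

theorem vol_pos {K : Set E3} (h : SB K) : 0 < V K := by
  have h1 : 0 < (volume : Measure E3) K :=
    (isOpen_interior.measure_pos volume h.int).trans_le (measure_mono interior_subset)
  exact ENNReal.toReal_pos h1.ne' h.cpt.measure_lt_top.ne

theorem al_nonneg (K : Set E3) (t : ℝ) : 0 ≤ al K t := measureReal_nonneg

theorem al_lower (ccv : CcvStmt) {K : Set E3} (h : SB K) (hpos : 0 < hgt K) {t : ℝ}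
    (ht : |t| ≤ hgt K) : (1 - 2 * (|t| / hgt K)) * al K 0 ≤ al K t := by
  have cc := ccv K h
  obtain ⟨s, hs⟩ : ∃ s, s = |t| / hgt K := ⟨_, rfl⟩
  have hs0 : 0 ≤ s := by rw [hs]; positivity
  have hs1 : s ≤ 1 := by rw [hs]; exact (div_le_one hpos).mpr ht
  obtain ⟨e, he, hte⟩ : ∃ e ∈ Icc (-hgt K) (hgt K), (1 - s) * 0 + s * e = t := by
    rcases abs_cases t with ⟨h1, h2⟩ | ⟨h1, h2⟩
    · refine ⟨hgt K, ⟨by linarith, le_rfl⟩, ?_⟩
      rw [hs, h1]
      field_simp
      ring
    · refine ⟨-hgt K, ⟨le_rfl, by linarith⟩, ?_⟩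
      rw [hs, h1]
      field_simp
      ring
  have h0 : (0 : ℝ) ∈ Icc (-hgt K) (hgt K) := ⟨by linarith, hpos.le⟩
  have h1 := cc.2 h0 he (by linarith : 0 ≤ 1 - s) hs0 (by ring)
  simp only [smul_eq_mul] at h1
  rw [hte] at h1
  have h4 := mul_nonneg hs0 (Real.sqrt_nonneg (al K e))
  have h2 : (1 - s) * Real.sqrt (al K 0) ≤ Real.sqrt (al K t) := by linarith
  have h5 : 0 ≤ (1 - s) * Real.sqrt (al K 0) := mul_nonneg (by linarith) (Real.sqrt_nonneg _)
  have h3 := pow_le_pow_left₀ h5 h2 2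
  rw [mul_pow, Real.sq_sqrt (al_nonneg K 0), Real.sq_sqrt (al_nonneg K t)] at h3
  rw [← hs]
  have h6 := mul_nonneg (sq_nonneg s) (al_nonneg K 0)
  nlinarith

theorem slab (ccv : CcvStmt) (fub : FubStmt) {K : Set E3} (h : SB K) (hpos : 0 < hgt K) {δ : ℝ}
    (hδ : 0 ≤ δ) (hδh : δ ≤ hgt K) :
    2 * δ * (1 - δ / hgt K) * al K 0 ≤ V {x | x ∈ K ∧ |x 2| ≤ δ} := by
  rw [(fub K h.cpt).2.2 δ]
  have hc : Continuous fun t : ℝ => (1 - 2 * (|t| / hgt K)) * al K 0 := by fun_prop
  have h1 : ∫ t in Icc (-δ) δ, (1 - 2 * (|t| / hgt K)) * al K 0 ≤ ∫ t in Icc (-δ) δ, al K t := by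
    apply setIntegral_mono_on (hc.continuousOn.integrableOn_compact isCompact_Icc)
      (fub K h.cpt).1.integrableOn measurableSet_Icc
    intro t ht
    exact al_lower ccv h hpos ((abs_le.mpr ht).trans hδh)
  refine le_trans (le_of_eq ?_) h1
  rw [integral_Icc_eq_integral_Ioc, ← intervalIntegral.integral_of_le (by linarith),
    ← intervalIntegral.integral_add_adjacent_intervals (hc.intervalIntegrable (-δ) 0)
      (hc.intervalIntegrable 0 δ)]
  have e1 : ∫ t in (-δ)..0, (1 - 2 * (|t| / hgt K)) * al K 0 =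
      ∫ t in (-δ)..0, (al K 0 + (2 * al K 0 / hgt K) * t) := by
    apply intervalIntegral.integral_congr
    intro t ht
    rw [uIcc_of_le (by linarith)] at ht
    simp only
    rw [abs_of_nonpos ht.2]
    ring
  have e2 : ∫ t in (0 : ℝ)..δ, (1 - 2 * (|t| / hgt K)) * al K 0 =
      ∫ t in (0 : ℝ)..δ, (al K 0 + (-(2 * al K 0 / hgt K)) * t) := by
    apply intervalIntegral.integral_congr
    intro t ht
    rw [uIcc_of_le hδ] at ht
    simp only
    rw [abs_of_nonneg ht.1]
    ring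
  rw [e1, e2, int_lin, int_lin]
  ring

theorem dir (gpf : GpfStmt) (eea : EeaStmt) (eeb : EebStmt) (eec : EecStmt) (sec : SecStmt)
    (ccv : CcvStmt) (hg : HgtStmt) (fub : FubStmt) : DirStmt := by
  intro K h hgood hint
  have hV := vol_pos h
  have hpos := (hg K h).1
  have hal : 0 < al K 0 := (sec K h).2.2.2.1
  obtain ⟨f, hf⟩ : ∃ f, f = al K 0 / V K := ⟨_, rfl⟩
  have hf0 : 0 < f := by rw [hf]; positivity
  have hfV : al K 0 = f * V K := by rw [hf]; field_simp
  obtain ⟨G, hG, hm⟩ := gpf K h hgood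
  rw [← hf] at hG hm
  rw [hint] at hm
  have hm' : ∫ x in (0 : ℝ)..(hgt K * f), x ^ 2 * G x ^ 2 = f ^ 2 / 2 := by
    rw [hm]
    field_simp
  have a1 := eea _ _ hG
  have a2 := eeb _ _ hG
  have a3 := eec _ _ hG
  rw [hm'] at a1 a2 a3
  have b1 : 353 / 1000 ≤ f := by
    by_contra hcon
    push Not at hcon
    nlinarith
  have hf2 : 0 < f ^ 2 := by positivity
  have b2 : hgt K ^ 2 ≤ 784 / 100 := by
    by_contra hcon
    push Not at hcon
    have : 784 / 100 * f ^ 2 < hgt K ^ 2 * f ^ 2 := mul_lt_mul_of_pos_right hcon hf2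
    rw [mul_pow] at a2
    linarith
  have b3 : (197 / 100) ^ 2 ≤ hgt K ^ 2 := by
    by_contra hcon
    push Not at hcon
    have : hgt K ^ 2 * f ^ 2 < (197 / 100) ^ 2 * f ^ 2 := mul_lt_mul_of_pos_right hcon hf2
    rw [mul_pow, le_div_iff₀ (by norm_num)] at a3
    linarith
  have c1 : 197 / 100 ≤ hgt K := by
    by_contra hcon
    push Not at hcon
    nlinarith
  have c2 : hgt K ≤ 14 / 5 := by
    by_contra hcon
    push Not at hcon
    nlinarith
  refine ⟨c1, c2, ?_⟩
  intro δ hδ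
  rcases le_or_gt (197 / 100) δ with hd | hd
  · have h1 : 1 - δ / (197 / 100) ≤ 0 := by
      rw [sub_nonpos, le_div_iff₀ (by norm_num)]
      linarith
    have h2 : 2 * δ * (1 - δ / (197 / 100)) * (353 / 1000) * V K ≤ 0 := by
      have h3 : 0 ≤ 2 * δ * (353 / 1000) * V K := by positivity
      nlinarith
    exact h2.trans measureReal_nonneg
  · refine le_trans ?_ (slab ccv fub h hpos hδ (by linarith))
    rw [hfV]
    have h1 : 1 - δ / (197 / 100) ≤ 1 - δ / hgt K := by
      have : δ / hgt K ≤ δ / (197 / 100) := div_le_div_of_nonneg_left hδ (by norm_num) c1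
      linarith
    have h0 : 0 ≤ 1 - δ / (197 / 100) := by
      rw [sub_nonneg, div_le_one (by norm_num)]
      exact hd.le
    have h2 : (353 / 1000) * V K ≤ f * V K := mul_le_mul_of_nonneg_right b1 hV.le
    have h3 : 2 * δ * (1 - δ / (197 / 100)) ≤ 2 * δ * (1 - δ / hgt K) :=
      mul_le_mul_of_nonneg_left h1 (by linarith)
    calc 2 * δ * (1 - δ / (197 / 100)) * (353 / 1000) * V K
        = (2 * δ * (1 - δ / (197 / 100))) * ((353 / 1000) * V K) := by ring
      _ ≤ (2 * δ * (1 - δ / hgt K)) * (f * V K) :=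
          mul_le_mul h3 h2 (by positivity)
            (mul_nonneg (by linarith) (h0.trans h1))

end Pool.Agent.UL3.H16
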